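import Pool.Agent.Helper56_MG.Stmts
import Pool.Agent.Helper56_MG.Base3

/-!
# GD: every countable family of dense sets is contained in a good one
-/

open Set

namespace Pool.Agent.MG.H10

open Pool.Agent.MG

variable {I : Type} [Idx I]

/-- The part of the body of a condition described by the coordinates in `C`. -/
def rbody (p : Cond I) (C : Set I) : Set (Pt I) :=
  {y | ∀ i ∈ p.S, i ∈ C → y i ∈ bd (ty i) (p.T i y)}

theorem restr_body_eq {p : Cond I} {Z : Set I} (hS : p.S ⊆ Z) (α : I) :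
    (p.restr α).body = rbody p (Z ∩ Set.Iio α) := by
  ext y
  rw [Cond.mem_restr]
  constructor
  · intro h i hi hC
    exact h i hi hC.2
  · intro h i hi hα
    exact h i hi ⟨hS hi, hα⟩

/-- `Phi` described by a cut. -/
def PhiC (N : Set (Cond I)) (D : Set (Cond I)) (e : Cond I) (C : Set I) : Set (Cond I) :=
  {d | d ∈ N ∧ (Disjoint (rbody d C) (rbody e C) ∨
    ∃ d' ∈ N, d' ≤ e ∧ d' ∈ D ∧ rbody d C ⊆ rbody d' C)}

theorem phi_eq {N : Set (Cond I)} {Z : Set I} (hS : ∀ e ∈ N, e.S ⊆ Z) {e : Cond I} (he : e ∈ N)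
    (D : Set (Cond I)) (α : I) : Phi I N e D α = PhiC N D e (Z ∩ Set.Iio α) := by
  ext d
  simp only [Phi, PhiC, mem_ofPred_eq]
  constructor
  · rintro ⟨hd, h⟩
    refine ⟨hd, ?_⟩
    rw [← restr_body_eq (hS d hd), ← restr_body_eq (hS e he)]
    refine h.imp id ?_
    rintro ⟨d', h1, h2, h3, h4⟩
    refine ⟨d', h1, h2, h3, ?_⟩
    rw [← restr_body_eq (hS d' h1)]
    exact h4
  · rintro ⟨hd, h⟩
    refine ⟨hd, ?_⟩
    rw [← restr_body_eq (hS d hd), ← restr_body_eq (hS e he)] at h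
    refine h.imp id ?_
    rintro ⟨d', h1, h2, h3, h4⟩
    refine ⟨d', h1, h2, h3, ?_⟩
    rw [← restr_body_eq (hS d' h1)] at h4
    exact h4

/-- A countable set has countably many cuts. -/
theorem countable_cuts {Z : Set I} (hZ : Z.Countable) :
    {C : Set I | ∃ α : I, C = Z ∩ Set.Iio α}.Countable := by
  have h : {C : Set I | ∃ α : I, C = Z ∩ Set.Iio α} ⊆
      insert Z ((fun z => Z ∩ Set.Iio z) '' Z) := by
    rintro C ⟨α, rfl⟩
    by_cases h : (Z \ Set.Iio α).Nonempty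
    · right
      obtain ⟨z, hz, hmin⟩ := WellFounded.has_min (wellFounded_lt (α := I)) _ h
      refine ⟨z, hz.1, ?_⟩
      have hαz : α ≤ z := not_lt.1 hz.2
      ext i
      constructor
      · rintro ⟨h1, h2⟩
        refine ⟨h1, ?_⟩
        by_contra h3
        exact hmin i ⟨h1, h3⟩ h2
      · rintro ⟨h1, h2⟩
        exact ⟨h1, lt_of_lt_of_le h2 hαz⟩
    · left
      ext i
      constructor
      · exact fun h1 => h1.1
      · intro h1
        refine ⟨h1, ?_⟩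
        by_contra h3
        exact h ⟨i, h1, h3⟩
  exact ((hZ.image _).insert _).mono h

/-- The operation `Phi` preserves density. -/
theorem phi_dense {β : I} {N : Set (Cond I)} {Z : Set I} (hN : GoodN I β N Z)
    {D : Set (Cond I)} (hD : ∀ e ∈ N, ∃ d ∈ N, d ≤ e ∧ d ∈ D) {e : Cond I} (he : e ∈ N)
    {α : I} (hα : α < β) : ∀ e' ∈ N, ∃ d ∈ N, d ≤ e' ∧ d ∈ Phi I N e D α := by
  intro d0 hd0
  obtain ⟨d1, h1, h2, h3⟩ := hN.decB α hα e he d0 hd0
  rcases h3 with h3 | h3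
  · have hg : Cond.glue d1 e α ∈ N := hN.glue α hα d1 h1 e he h3
    obtain ⟨d2, h4, h5, h6⟩ := hD _ hg
    have h7 : d2.restr α ≤ d1.restr α := by
      have := Cond.restr_mono h5 α
      rwa [Cond.glue_restr _ _ le_rfl] at this
    refine ⟨Cond.glue d2 d1 α, hN.glue α hα d2 h4 d1 h1 h7,
      le_trans (Cond.glue_le_right h7) h2, hN.glue α hα d2 h4 d1 h1 h7, Or.inr
      ⟨d2, h4, le_trans h5 (Cond.glue_le_right h3), h6, ?_⟩⟩
    rw [Cond.glue_restr _ _ le_rfl]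
  · exact ⟨d1, h1, h2, h1, Or.inl h3⟩

/-- The closure of a family under the operation `Phi`. -/
def stage (N : Set (Cond I)) (β : I) (E : Set (Set (Cond I))) : ℕ → Set (Set (Cond I))
  | 0 => E
  | n + 1 => stage N β E n ∪
      {P | ∃ D ∈ stage N β E n, ∃ e ∈ N, ∃ α, α < β ∧ P = Phi I N e D α}

theorem stage_countable {β : I} {N : Set (Cond I)} {Z : Set I} (hN : GoodN I β N Z)
    {E : Set (Set (Cond I))} (hE : E.Countable) (n : ℕ) : (stage N β E n).Countable := by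
  induction n with
  | zero => exact hE
  | succ n ih =>
    refine ih.union ?_
    have h : {P | ∃ D ∈ stage N β E n, ∃ e ∈ N, ∃ α, α < β ∧ P = Phi I N e D α} ⊆
        (fun z : Set (Cond I) × Cond I × Set I => PhiC N z.1 z.2.1 z.2.2) ''
          ((stage N β E n) ×ˢ (N ×ˢ {C : Set I | ∃ α : I, C = Z ∩ Set.Iio α})) := by
      rintro P ⟨D, hD, e, he, α, -, rfl⟩
      exact ⟨⟨D, e, Z ∩ Set.Iio α⟩, ⟨hD, he, α, rfl⟩, (phi_eq hN.supp he D α).symm⟩
    exact ((ih.prod (hN.cN.prod (countable_cuts hN.cZ))).image _).mono h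

theorem stage_dense {β : I} {N : Set (Cond I)} {Z : Set I} (hN : GoodN I β N Z)
    {E : Set (Set (Cond I))} (hE : ∀ D ∈ E, ∀ e ∈ N, ∃ d ∈ N, d ≤ e ∧ d ∈ D) (n : ℕ) :
    ∀ D ∈ stage N β E n, ∀ e ∈ N, ∃ d ∈ N, d ≤ e ∧ d ∈ D := by
  induction n with
  | zero => exact hE
  | succ n ih =>
    rintro D (hD | ⟨D', hD', e, he, α, hα, rfl⟩)
    · exact ih D hD
    · exact phi_dense hN (ih D' hD') he hα

/-- GD: every countable family of dense sets is contained in a good one. -/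
theorem gd : GdStmt I := by
  intro β N Z hN D0 hD0 hdense
  set E : Set (Set (Cond I)) := (D0 ∪
    (fun z : Cond I × I × Node => {d : Cond I | (∀ y ∈ (d.restr z.2.1).body, z.2.2 ∈ z.1.T z.2.1 y) ∨
      (∀ y ∈ (d.restr z.2.1).body, z.2.2 ∉ z.1.T z.2.1 y)}) '' (N ×ˢ (Z ×ˢ (univ : Set Node)))) ∪
    ((fun z : I × I => {d : Cond I | Rk d z.1 z.2}) ''
      {z : I × I | z.1 ∈ Z ∧ z.2 ∈ Z ∧ ty z.1 = false ∧ ty z.2 = false ∧ z.2 < z.1} ∪
    (fun i : I => {d : Cond I | i ∈ d.S}) '' Z) with hEdef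
  have hZZ : {z : I × I | z.1 ∈ Z ∧ z.2 ∈ Z ∧ ty z.1 = false ∧ ty z.2 = false ∧
      z.2 < z.1}.Countable := by
    refine (hN.cZ.prod hN.cZ).mono ?_
    intro z hz
    exact ⟨hz.1, hz.2.1⟩
  have hEc : E.Countable :=
    (hD0.union ((hN.cN.prod (hN.cZ.prod (countable_univ))).image _)).union
      ((hZZ.image _).union (hN.cZ.image _))
  have hEd : ∀ D ∈ E, ∀ e ∈ N, ∃ d ∈ N, d ≤ e ∧ d ∈ D := by
    rintro D ((hD | ⟨⟨e, α, t⟩, ⟨he, hα, -⟩, rfl⟩) | (⟨⟨α, j⟩, ⟨h1, h2, h3, h4, h5⟩, rfl⟩ |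
      ⟨α, hα, rfl⟩))
    · exact hdense D hD
    · intro e' he'
      obtain ⟨d, h1, h2, h3⟩ := hN.decT α hα e he t e' he'
      exact ⟨d, h1, h2, h3⟩
    · intro e' he'
      obtain ⟨d, h6, h7, h8⟩ := hN.rk α h1 h3 j h2 h4 h5 e' he'
      exact ⟨d, h6, h7, h8⟩
    · intro e' he'
      obtain ⟨d, h6, h7, h8⟩ := hN.mem α hα e' he'
      exact ⟨d, h6, h7, h8⟩
  have hsub : E ⊆ ⋃ n, stage N β E n := fun D hD => mem_iUnion.2 ⟨0, hD⟩
  refine ⟨⋃ n, stage N β E n, fun D hD => hsub (Or.inl (Or.inl hD)), ?_⟩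
  refine ⟨countable_iUnion fun n => stage_countable hN hEc n, ?_, ?_, ?_, ?_, ?_⟩
  · intro D hD
    obtain ⟨n, hn⟩ := mem_iUnion.1 hD
    exact stage_dense hN hEd n D hn
  · intro D hD e he α hα
    obtain ⟨n, hn⟩ := mem_iUnion.1 hD
    exact mem_iUnion.2 ⟨n + 1, Or.inr ⟨D, hn, e, he, α, hα, rfl⟩⟩
  · intro e he α hα t
    exact hsub (Or.inl (Or.inr ⟨⟨e, α, t⟩, ⟨he, hα, trivial⟩, rfl⟩))
  · intro α hα h1 j hj h2 h3
    exact hsub (Or.inr (Or.inl ⟨⟨α, j⟩, ⟨hα, hj, h1, h2, h3⟩, rfl⟩))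
  · intro α hα
    exact hsub (Or.inr (Or.inr ⟨α, hα, rfl⟩))

end Pool.Agent.MG.H10
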