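import Pool.Agent.Helper56_MG.Stmts
import Pool.Agent.Helper56_MG.Base3

/-!
# HG: facts on genericity
-/

open Set

namespace Pool.Agent.MG.H10

open Pool.Agent.MG

variable {I : Type} [Idx I]

theorem gen_of_hit {β : I} {N : Set (Cond I)} {Z : Set I} {𝒟 : Set (Set (Cond I))}
    (hD : GoodD I β N Z 𝒟) {α : I} (hα : α < β) {c : Cond I} {y : Pt I}
    (h : Hit I N 𝒟 α c y) : Gen I N 𝒟 α y := by
  intro e he hy D hDD
  obtain ⟨d, h1, h2, h3, h4⟩ := h _ (hD.phi D hDD e he α hα)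
  obtain ⟨-, h5 | ⟨d', h6, h7, h8, h9⟩⟩ := h3
  · exact absurd hy (Set.disjoint_left.1 h5 h4)
  · exact ⟨d', h6, h7, h8, h9 h4⟩

theorem measurableSet_gen {β : I} {N : Set (Cond I)} {Z : Set I} {𝒟 : Set (Set (Cond I))}
    (hN : GoodN I β N Z) (hD : GoodD I β N Z 𝒟) (α : I) :
    MeasurableSet {y | Gen I N 𝒟 α y} := by
  have h : {y | Gen I N 𝒟 α y} = ⋂ e ∈ N, ((e.restr α).bodyᶜ ∪ ⋂ D ∈ 𝒟,
      ⋃ d ∈ {d | d ∈ N ∧ d ≤ e ∧ d ∈ D}, (d.restr α).body) := by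
    ext y
    simp only [Gen, mem_ofPred_eq, mem_iInter, mem_union, mem_compl_iff, mem_iUnion, exists_prop]
    constructor
    · intro h e he
      by_cases hy : y ∈ (e.restr α).body
      · right
        intro D hDD
        obtain ⟨d, h1, h2, h3, h4⟩ := h e he hy D hDD
        exact ⟨d, ⟨h1, h2, h3⟩, h4⟩
      · exact Or.inl hy
    · intro h e he hy D hDD
      rcases h e he with h1 | h1
      · exact absurd hy h1
      · obtain ⟨d, ⟨h2, h3, h4⟩, h5⟩ := h1 D hDD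
        exact ⟨d, h2, h3, h4, h5⟩
  rw [h]
  refine MeasurableSet.biInter hN.cN fun e _ => ?_
  refine (Cond.measurableSet_body _).compl.union ?_
  refine MeasurableSet.biInter hD.cnt fun D _ => ?_
  refine MeasurableSet.biUnion (hN.cN.mono fun d hd => hd.1) fun d _ => ?_
  exact Cond.measurableSet_body _

theorem depOn_gen {β : I} {N : Set (Cond I)} {Z : Set I} {𝒟 : Set (Set (Cond I))}
    (hN : GoodN I β N Z) (α : I) :
    DepOn (Z ∩ Set.Iio α) (fun y => Gen I N 𝒟 α y) := by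
  intro y y' hy
  have h : ∀ e ∈ N, (y ∈ (e.restr α).body) = (y' ∈ (e.restr α).body) := fun e he =>
    Cond.depOn_restr_body (hN.supp e he) (hN.dep e he) α y y' hy
  apply propext
  constructor
  · intro hG e he hye D hD
    obtain ⟨d, h1, h2, h3, h4⟩ := hG e he ((h e he).symm ▸ hye) D hD
    exact ⟨d, h1, h2, h3, (h d h1) ▸ h4⟩
  · intro hG e he hye D hD
    obtain ⟨d, h1, h2, h3, h4⟩ := hG e he ((h e he) ▸ hye) D hD
    exact ⟨d, h1, h2, h3, (h d h1).symm ▸ h4⟩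

theorem gen_bt {β : I} {N : Set (Cond I)} {Z : Set I} {𝒟 : Set (Set (Cond I))}
    (hD : GoodD I β N Z 𝒟) (y : Pt I) : Gen I N 𝒟 bt y := by
  intro e he _ D hDD
  obtain ⟨d, h1, h2, h3⟩ := hD.dense D hDD e he
  refine ⟨d, h1, h2, h3, ?_⟩
  rw [Cond.mem_restr]
  intro i _ hi
  exact absurd (bt_le i) (not_le.2 hi)

/-- One step of the selection of decreasing sequences. -/
theorem sel_step {β : I} {N : Set (Cond I)} {Z : Set I} (hN : GoodN I β N Z) (α : I)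
    (D : Set (Cond I)) (C : Set I) (hC : Z ∩ Set.Iio α ⊆ C) (b : Pt I → Cond I) (hb : MeasC b)
    (hbC : DepOn C b) : ∃ c : Pt I → Cond I, MeasC c ∧ DepOn C c ∧
      ∀ y, (∃ d ∈ N, d ≤ b y ∧ d ∈ D ∧ y ∈ (d.restr α).body) →
        c y ∈ N ∧ c y ≤ b y ∧ c y ∈ D ∧ y ∈ ((c y).restr α).body := by
  have hne : Nonempty (Cond I) := ⟨Cond.one I⟩
  have m1 : ∀ d ∈ N, MeasurableSet {y | d ≤ b y ∧ d ∈ D ∧ y ∈ (d.restr α).body} := by
    intro d _
    have e : {y | d ≤ b y ∧ d ∈ D ∧ y ∈ (d.restr α).body} =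
        {y | b y ∈ {x | d ≤ x ∧ d ∈ D}} ∩ (d.restr α).body := by
      ext y
      simp only [mem_ofPred_eq, mem_inter_iff]
      tauto
    rw [e]
    exact (hb.preimage _).inter (Cond.measurableSet_body _)
  have m2 : ∀ d ∈ N, DepOn C (fun y => d ≤ b y ∧ d ∈ D ∧ y ∈ (d.restr α).body) := by
    intro d hd y y' hy
    have h4 : b y = b y' := hbC y y' hy
    have h5 : (y ∈ (d.restr α).body) = (y' ∈ (d.restr α).body) :=
      Cond.depOn_restr_body (hN.supp d hd) (hN.dep d hd) α y y' fun i hi => hy i (hC hi)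
    show (d ≤ b y ∧ d ∈ D ∧ y ∈ (d.restr α).body) = (d ≤ b y' ∧ d ∈ D ∧ y' ∈ (d.restr α).body)
    rw [h4, h5]
  obtain ⟨c, h1, h2, h3⟩ := exists_sel N hN.cN
    (fun d y => d ≤ b y ∧ d ∈ D ∧ y ∈ (d.restr α).body) m1 C m2
  exact ⟨c, h1, h2, h3⟩

/-- HG: facts on genericity. -/
theorem hg : HgStmt I := by
  intro β N Z 𝒟 hN hD
  refine ⟨fun α hα c _ y _ h => gen_of_hit hD hα h,
    fun α _ => ⟨measurableSet_gen hN hD α, depOn_gen hN α⟩, fun y => gen_bt hD y, ?_⟩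
  intro α _ D hDD C c0 hc0 hc0C hC
  choose! F hF using fun (j : ℕ) (b : Pt I → Cond I) (hb : MeasC b ∧ DepOn C b) =>
    sel_step hN α (D j) C hC b hb.1 hb.2
  let c : ℕ → Pt I → Cond I := fun j => Nat.rec (F 0 c0) (fun j b => F (j + 1) b) j
  have hc : ∀ j, c (j + 1) = F (j + 1) (c j) := fun j => rfl
  have hm : ∀ j, MeasC (c j) ∧ DepOn C (c j) := by
    intro j
    induction j with
    | zero => exact ⟨(hF 0 c0 ⟨hc0, hc0C⟩).1, (hF 0 c0 ⟨hc0, hc0C⟩).2.1⟩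
    | succ j ih =>
      rw [hc]
      exact ⟨(hF (j + 1) (c j) ih).1, (hF (j + 1) (c j) ih).2.1⟩
  refine ⟨c, hm, ?_⟩
  intro y hy hy0 hy1
  have key : ∀ j, c j y ∈ N ∧ c j y ≤ c0 y ∧ c j y ∈ D j ∧ y ∈ ((c j y).restr α).body := by
    intro j
    induction j with
    | zero =>
      exact (hF 0 c0 ⟨hc0, hc0C⟩).2.2 y (hy _ hy0 hy1 (D 0) (hDD 0))
    | succ j ih =>
      have h1 := (hF (j + 1) (c j) (hm j)).2.2 y (hy _ ih.1 ih.2.2.2 (D (j + 1)) (hDD (j + 1)))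
      rw [hc]
      exact ⟨h1.1, le_trans h1.2.1 ih.2.1, h1.2.2.1, h1.2.2.2⟩
  intro j
  refine ⟨(key j).1, (key j).2.2.1, (key j).2.2.2, (key j).2.1, ?_⟩
  have h1 := (hF (j + 1) (c j) (hm j)).2.2 y
    (hy _ (key j).1 (key j).2.2.2 (D (j + 1)) (hDD (j + 1)))
  rw [hc]
  exact h1.2.1

end Pool.Agent.MG.H10
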